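import Mathlib
import Pool.Agent.Q71.BidiskCyclic

/-!
# Cyclicity of `1 - (z₁ + z₂) / 2` in the weighted spaces of the bidisk

Functions on the bidisk are functions `F : ℂ × ℂ → ℂ`; only their values at points `z` with
`‖z.1‖ < 1` and `‖z.2‖ < 1` matter.
-/

open MvPolynomial

namespace Pool.Agent.Results.MP_f86430_an.CyclicUpToTwo

/-- The weight `(|J| + 2) ^ β` of the multi-index `J = (j₁, j₂)`. -/
noncomputable def weight (β : ℝ) (J : ℕ × ℕ) : ℝ := ((J.1 : ℝ) + (J.2 : ℝ) + 2) ^ β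

/-- On the bidisk `F` is the sum of the power series `∑ a_J z^J`. -/
def HasTaylor (F : ℂ × ℂ → ℂ) (a : ℕ × ℕ → ℂ) : Prop :=
  ∀ z : ℂ × ℂ, ‖z.1‖ < 1 → ‖z.2‖ < 1 →
    HasSum (fun J : ℕ × ℕ => a J * (z.1 ^ J.1 * z.2 ^ J.2)) (F z)

/-- `F` belongs to `𝒟_β(𝔻²)` and has the Taylor coefficients `a`:
`F(z) = ∑ a_J z^J` on `𝔻²` and `∑ |a_J|² (|J| + 2) ^ β < ∞`. -/
def InSpace (β : ℝ) (F : ℂ × ℂ → ℂ) (a : ℕ × ℕ → ℂ) : Prop :=
  HasTaylor F a ∧ Summable fun J => ‖a J‖ ^ 2 * weight β J

/-- `f` is cyclic in `𝒟_β(𝔻²)`: `f` is in the space, and for every `g` in the space and every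
`ε > 0` there is a polynomial `p` such that `g - p f` lies in the space and `‖g - p f‖_β < ε`. -/
def IsCyclic (β : ℝ) (f : ℂ × ℂ → ℂ) : Prop :=
  (∃ a, InSpace β f a) ∧
  ∀ g : ℂ × ℂ → ℂ, (∃ b, InSpace β g b) → ∀ ε > 0, ∃ (p : MvPolynomial (Fin 2) ℂ)
    (c : ℕ × ℕ → ℂ), InSpace β (fun z => g z - eval ![z.1, z.2] p * f z) c ∧
      Real.sqrt (∑' J, ‖c J‖ ^ 2 * weight β J) < ε

open Q71.BidiskCyclic

lemma weight_pos (β : ℝ) (J : ℕ × ℕ) : 0 < weight β J := by
  unfold weight
  positivity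

/-- square root of the weight -/
noncomputable def sw (β : ℝ) (J : ℕ × ℕ) : ℝ := Real.sqrt (weight β J)

lemma sw_pos (β : ℝ) (J : ℕ × ℕ) : 0 < sw β J := Real.sqrt_pos.mpr (weight_pos β J)

lemma sw_sq (β : ℝ) (J : ℕ × ℕ) : sw β J ^ 2 = weight β J := Real.sq_sqrt (weight_pos β J).le

/-- the Hilbert space `ℓ²(ℕ × ℕ)` -/
noncomputable abbrev H := lp (fun _ : ℕ × ℕ => ℂ) 2

/-- Coefficient sequences of finite support. -/
abbrev Fin2 := (ℕ × ℕ) →₀ ℂ

/-- Coefficients of `f = 1 - (z₁ + z₂)/2`, and of `z^J f`. -/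
noncomputable def fc (J : ℕ × ℕ) : Fin2 :=
  Finsupp.single J 1 - Finsupp.single (J.1 + 1, J.2) (1 / 2) - Finsupp.single (J.1, J.2 + 1) (1 / 2)

/-- Finitely supported sequences as elements of the Hilbert space, weighted. -/
noncomputable def T (β : ℝ) : Fin2 →ₗ[ℂ] H :=
  Finsupp.lsum ℂ fun J => LinearMap.toSpanSingleton ℂ H (lp.single 2 J ((sw β J : ℝ) : ℂ))

lemma T_apply (β : ℝ) (a : Fin2) (J : ℕ × ℕ) : (T β a : ∀ _, ℂ) J = a J * ((sw β J : ℝ) : ℂ) := by
  classical
  unfold T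
  induction a using Finsupp.induction_linear with
  | zero => simp
  | add a b ha hb =>
    rw [map_add]
    simp only [lp.coeFn_add, Pi.add_apply, Finsupp.add_apply] at *
    rw [ha, hb]
    ring
  | single K c =>
    simp only [Finsupp.lsum_single, LinearMap.toSpanSingleton_apply, lp.coeFn_smul, Pi.smul_apply,
      smul_eq_mul]
    by_cases h : K = J
    · subst h
      simp
    · rw [lp.single_apply_ne _ _ _ (Ne.symm h)]
      simp [h]

/-- Multiplication by `f` on finitely supported coefficient sequences. -/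
noncomputable def Mf : Fin2 →ₗ[ℂ] Fin2 :=
  Finsupp.lsum ℂ fun J => LinearMap.toSpanSingleton ℂ Fin2 (fc J)

/-- The span of `z^J f`. -/
noncomputable def S (β : ℝ) : Submodule ℂ H := LinearMap.range ((T β).comp Mf)

lemma T_single (β : ℝ) (J : ℕ × ℕ) (c : ℂ) :
    T β (Finsupp.single J c) = c • lp.single 2 J ((sw β J : ℝ) : ℂ) := by
  simp [T]

lemma S_orth (β : ℝ) (hβ : β ≤ 2) : (S β)ᗮ = ⊥ := by
  rw [Submodule.eq_bot_iff]
  intro x hx
  set b : ℕ → ℕ → ℂ := fun j k => ((sw β (j, k) : ℝ) : ℂ) * x (j, k) with hb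
  have hharm : Harm b := by
    intro j k
    have h1 : T β (fc (j, k)) ∈ S β := ⟨Finsupp.single (j, k) 1, by simp [Mf]⟩
    have h2 := (Submodule.mem_orthogonal _ _).mp hx _ h1
    unfold fc at h2
    rw [map_sub, map_sub, T_single, T_single, T_single, inner_sub_left, inner_sub_left,
      inner_smul_left, inner_smul_left, inner_smul_left, lp.inner_single_left,
      lp.inner_single_left, lp.inner_single_left] at h2
    simp only [RCLike.inner_apply, Complex.conj_ofReal, map_one, one_mul, map_div₀, map_ofNat] at h2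
    simp only [hb]
    linear_combination 2 * h2
  have hsq : Sq b := by
    unfold Sq
    have h1 : Summable fun J : ℕ × ℕ => ‖x J‖ ^ 2 := by
      have := (lp.memℓp x).summable (by norm_num)
      simpa using this
    refine Summable.of_nonneg_of_le (fun _ => by positivity) (fun J => ?_) h1
    simp only [hb, norm_mul, mul_pow]
    rw [Complex.norm_real, Real.norm_eq_abs, sq_abs, sw_sq]
    rw [div_le_iff₀ (by positivity), mul_comm]
    apply mul_le_mul_of_nonneg_left _ (by positivity)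
    unfold weight
    rw [← Real.rpow_two]
    apply Real.rpow_le_rpow_of_exponent_le _ hβ
    have : (0 : ℝ) ≤ J.1 := by positivity
    have : (0 : ℝ) ≤ J.2 := by positivity
    linarith
  have hz := main hharm hsq
  ext J
  have h1 := hz J.1 J.2
  simp only [hb, mul_eq_zero] at h1
  rcases h1 with h1 | h1
  · exact absurd (Complex.ofReal_eq_zero.mp h1) (sw_pos β J).ne'
  · simpa using h1

lemma S_dense (β : ℝ) (hβ : β ≤ 2) : (S β).topologicalClosure = ⊤ := by
  rw [Submodule.topologicalClosure_eq_top_iff]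
  exact S_orth β hβ

/-- Evaluation of a finitely supported coefficient sequence. -/
noncomputable def ev (z : ℂ × ℂ) : Fin2 →ₗ[ℂ] ℂ :=
  Finsupp.lsum ℂ fun J => LinearMap.toSpanSingleton ℂ ℂ (z.1 ^ J.1 * z.2 ^ J.2)

lemma ev_taylor (a : Fin2) : HasTaylor (fun z => ev z a) a := by
  intro z _ _
  have h1 : ev z a = ∑ J ∈ a.support, a J * (z.1 ^ J.1 * z.2 ^ J.2) := by
    simp [ev, Finsupp.sum]
  simp only [h1]
  apply hasSum_sum_of_ne_finset_zero
  intro J hJ
  rw [Finsupp.notMem_support_iff.mp hJ, zero_mul]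

lemma ev_Mf (z : ℂ × ℂ) (a : Fin2) : ev z (Mf a) = ev z a * (1 - (z.1 + z.2) / 2) := by
  induction a using Finsupp.induction_linear with
  | zero => simp
  | add a b ha hb => rw [map_add, map_add, map_add, ha, hb]; ring
  | single J c =>
    simp only [Mf, Finsupp.lsum_single, LinearMap.toSpanSingleton_apply, map_smul, fc, map_sub, ev,
      smul_eq_mul]
    ring

/-- The polynomial with given coefficients. -/
noncomputable def poly : Fin2 →ₗ[ℂ] MvPolynomial (Fin 2) ℂ :=
  Finsupp.lsum ℂ fun J => LinearMap.toSpanSingleton ℂ (MvPolynomial (Fin 2) ℂ)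
    (X 0 ^ J.1 * X 1 ^ J.2)

lemma eval_poly (z : ℂ × ℂ) (a : Fin2) : eval ![z.1, z.2] (poly a) = ev z a := by
  induction a using Finsupp.induction_linear with
  | zero => simp
  | add a b ha hb => rw [map_add, map_add, map_add, ha, hb]
  | single J c =>
    simp [poly, ev, smul_eval]

lemma finsupp_inSpace (β : ℝ) (a : Fin2) : InSpace β (fun z => ev z a) a := by
  refine ⟨ev_taylor a, summable_of_ne_finset_zero (s := a.support) ?_⟩
  intro J hJ
  rw [Finsupp.notMem_support_iff.mp hJ]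
  simp

/-- **The polynomial `1 - (z₁ + z₂) / 2` is cyclic in `𝒟_β(𝔻²)` for every `β ≤ 2`**; in particular
for every `β` with `3/2 < β ≤ 2`. -/
theorem result (β : ℝ) (hβ : β ≤ 2) : IsCyclic β (fun z => 1 - (z.1 + z.2) / 2) := by
  refine ⟨⟨fc (0, 0), ?_⟩, ?_⟩
  · have h1 : (fun z : ℂ × ℂ => 1 - (z.1 + z.2) / 2) = fun z => ev z (fc (0, 0)) := by
      funext z
      simp only [fc, map_sub, ev, Finsupp.lsum_single, LinearMap.toSpanSingleton_apply,
        smul_eq_mul]
      ring
    rw [h1]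
    exact finsupp_inSpace β _
  · rintro g ⟨b, hb1, hb2⟩ ε hε
    have hmem : Memℓp (fun J => b J * ((sw β J : ℝ) : ℂ)) 2 := by
      apply memℓp_gen
      refine hb2.congr fun J => ?_
      rw [norm_mul, Complex.norm_real, Real.norm_eq_abs]
      norm_num
      rw [mul_pow, sq_abs, sw_sq]
    set x : H := ⟨_, hmem⟩ with hx
    have hxT : x ∈ (S β).topologicalClosure := by
      rw [S_dense β hβ]
      trivial
    rw [← SetLike.mem_coe, Submodule.topologicalClosure_coe, Metric.mem_closure_iff] at hxT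
    obtain ⟨_, ⟨p, rfl⟩, hp⟩ := hxT ε hε
    simp only [LinearMap.comp_apply] at hp
    rw [dist_eq_norm] at hp
    have hval : ∀ J, (x - T β (Mf p) : H) J = (b J - Mf p J) * ((sw β J : ℝ) : ℂ) := by
      intro J
      rw [lp.coeFn_sub, Pi.sub_apply, T_apply]
      simp only [hx]
      ring
    have hnorm : ∀ J, ‖(x - T β (Mf p) : H) J‖ ^ 2 = ‖b J - Mf p J‖ ^ 2 * weight β J := by
      intro J
      rw [hval, norm_mul, mul_pow, Complex.norm_real, Real.norm_eq_abs, sq_abs, sw_sq]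
    have hsum : Summable fun J => ‖(x - T β (Mf p) : H) J‖ ^ 2 := by
      have := (lp.memℓp (x - T β (Mf p) : H)).summable (by norm_num)
      simpa using this
    refine ⟨poly p, fun J => b J - Mf p J, ⟨?_, ?_⟩, ?_⟩
    · intro z hz1 hz2
      have h1 := (hb1 z hz1 hz2).sub (ev_taylor (Mf p) z hz1 hz2)
      simp only [← sub_mul] at h1
      rw [ev_Mf] at h1
      simp only [eval_poly]
      exact h1
    · exact hsum.congr hnorm
    · have h1 : Real.sqrt (∑' J, ‖b J - Mf p J‖ ^ 2 * weight β J) = ‖x - T β (Mf p)‖ := by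
        rw [lp.norm_eq_tsum_rpow (by norm_num)]
        simp only [ENNReal.toReal_ofNat, Real.rpow_two]
        rw [tsum_congr hnorm, Real.sqrt_eq_rpow]
      rw [h1]
      exact hp

end Pool.Agent.Results.MP_f86430_an.CyclicUpToTwo
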